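import Pool.Agent.W120.WS.Frozen
import Pool.Agent.W283.WS.D2
import Pool.Agent.W296.WS.Removal

/-! Glue: 2-sets and pairs. -/

set_option autoImplicit false

namespace WSep
open Pool.Agent.W296.WS (Cr)

/-- diagonals of the `n`-gon, as pairs -/
def Dg (n : ℕ) : Set (Fin n × Fin n) :=
  {p | p.1.val + 2 ≤ p.2.val ∧ ¬ (p.1.val = 0 ∧ p.2.val + 1 = n)}

/-- noncrossing pairs -/
def adjP (n : ℕ) (p q : Fin n × Fin n) : Prop :=
  ¬ (p.1 < q.1 ∧ q.1 < p.2 ∧ p.2 < q.2) ∧ ¬ (q.1 < p.1 ∧ p.1 < q.2 ∧ q.2 < p.2)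

theorem Cr_pair {a b c d : ℕ} (hab : a < b) (hcd : c < d) :
    Cr {a, b} {c, d} ↔ (a < c ∧ c < b ∧ b < d) ∨ (c < a ∧ a < d ∧ d < b) := by
  constructor
  · rintro ⟨w, x, y, z, h1, h2, h3, h4 | h4⟩
    · simp only [Finset.mem_sdiff, Finset.mem_insert, Finset.mem_singleton] at h4
      left; omega
    · simp only [Finset.mem_sdiff, Finset.mem_insert, Finset.mem_singleton] at h4
      right; omega
  · have key : ∀ x y z w : ℕ, x ≠ z → x ≠ w → (x : ℕ) ∈ ({x, y} : Finset ℕ) \ {z, w} ∧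
        x ∈ ({y, x} : Finset ℕ) \ {z, w} := by
      intro x y z w h1 h2
      simp [h1, h2]
    rintro (h | h)
    · refine ⟨a, c, b, d, h.1, h.2.1, h.2.2, Or.inl ⟨?_, ?_, ?_, ?_⟩⟩
      · exact (key a b c d (by omega) (by omega)).1
      · exact (key c d a b (by omega) (by omega)).1
      · exact (key b a c d (by omega) (by omega)).2
      · exact (key d c a b (by omega) (by omega)).2
    · refine ⟨c, a, d, b, h.1, h.2.1, h.2.2, Or.inr ⟨?_, ?_, ?_, ?_⟩⟩
      · exact (key c d a b (by omega) (by omega)).1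
      · exact (key a b c d (by omega) (by omega)).1
      · exact (key d c a b (by omega) (by omega)).2
      · exact (key b a c d (by omega) (by omega)).2

theorem pair_inj {a b c d : ℕ} (hab : a < b) (hcd : c < d)
    (h : ({a, b} : Finset ℕ) = {c, d}) : a = c ∧ b = d := by
  have h1 : a ∈ ({c, d} : Finset ℕ) := by rw [← h]; simp
  have h2 : b ∈ ({c, d} : Finset ℕ) := by rw [← h]; simp
  have h3 : c ∈ ({a, b} : Finset ℕ) := by rw [h]; simp
  have h4 : d ∈ ({a, b} : Finset ℕ) := by rw [h]; simp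
  simp only [Finset.mem_insert, Finset.mem_singleton] at h1 h2 h3 h4
  omega

theorem isI_two {n : ℕ} (hn : 4 ≤ n) {a b : ℕ} (hab : a < b) (hb : b < n) :
    IsI n 2 {a, b} ↔ (b = a + 1 ∨ (a = 0 ∧ b + 1 = n)) := by
  rw [isI_iff (by omega)]
  constructor
  · rintro ⟨i, hi, h⟩
    have h1 := (h a).1 (by simp)
    have h2 := (h b).1 (by simp)
    unfold A at h1 h2
    omega
  · rintro (h | h)
    · refine ⟨a, by omega, fun x => ?_⟩
      unfold A
      simp only [Finset.mem_insert, Finset.mem_singleton]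
      omega
    · refine ⟨b, by omega, fun x => ?_⟩
      unfold A
      simp only [Finset.mem_insert, Finset.mem_singleton]
      omega

/-- the 2-set of a pair -/
def toSet {n : ℕ} (p : Fin n × Fin n) : V n :=
  ⟨{p.1.val, p.2.val}, Finset.mem_powerset.2 (by
    intro x hx
    simp only [Finset.mem_insert, Finset.mem_singleton] at hx
    rw [Finset.mem_range]
    rcases hx with rfl | rfl
    · exact p.1.2
    · exact p.2.2)⟩

open Classical in
/-- the sorted pair of a 2-set -/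
noncomputable def toPair {n : ℕ} (p0 : Fin n × Fin n) (v : V n) : Fin n × Fin n :=
  if h : ∃ p : Fin n × Fin n, p.1 < p.2 ∧ toSet p = v then h.choose else p0

theorem toPair_spec {n : ℕ} (p0 : Fin n × Fin n) {v : V n} (hv : v.1.card = 2) :
    (toPair p0 v).1 < (toPair p0 v).2 ∧ toSet (toPair p0 v) = v := by
  have h : ∃ p : Fin n × Fin n, p.1 < p.2 ∧ toSet p = v := by
    obtain ⟨a, b, hab, hv2⟩ := Finset.card_eq_two.1 hv
    have ha : a < n := Finset.mem_range.1 (V_sub v (by rw [hv2]; simp))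
    have hb : b < n := Finset.mem_range.1 (V_sub v (by rw [hv2]; simp))
    rcases lt_or_gt_of_ne hab with h | h
    · exact ⟨(⟨a, ha⟩, ⟨b, hb⟩), h, Subtype.ext hv2.symm⟩
    · exact ⟨(⟨b, hb⟩, ⟨a, ha⟩), h, Subtype.ext (by rw [hv2]; exact Finset.pair_comm _ _)⟩
  unfold toPair
  rw [dif_pos h]
  exact h.choose_spec

theorem toPair_toSet {n : ℕ} (p0 : Fin n × Fin n) {p : Fin n × Fin n} (h : p.1 < p.2) :
    toPair p0 (toSet p) = p := by
  have hc : (toSet p).1.card = 2 := Finset.card_pair (by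
    intro h'; exact absurd (Fin.ext h') (ne_of_lt h))
  obtain ⟨h1, h2⟩ := toPair_spec p0 hc
  have := pair_inj (a := (toPair p0 (toSet p)).1.val) (b := (toPair p0 (toSet p)).2.val)
    (c := p.1.val) (d := p.2.val) h1 h (congrArg Subtype.val h2)
  exact Prod.ext (Fin.ext this.1) (Fin.ext this.2)

theorem toSet_mem {n : ℕ} (hn : 4 ≤ n) {p : Fin n × Fin n} (h : p.1 < p.2) :
    toSet p ∈ L n 2 ↔ p ∈ Dg n := by
  have hc : (toSet p).1.card = 2 := Finset.card_pair (by
    intro h'; exact absurd (Fin.ext h') (ne_of_lt h))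
  have hlt : p.1.val < p.2.val := h
  constructor
  · rintro ⟨_, h2⟩
    have h3 := (isI_two hn hlt p.2.2).not.1 h2
    show p.1.val + 2 ≤ p.2.val ∧ ¬ (p.1.val = 0 ∧ p.2.val + 1 = n)
    omega
  · rintro ⟨h1, h2⟩
    refine ⟨hc, (isI_two hn hlt p.2.2).not.2 ?_⟩
    omega

theorem glue {n : ℕ} (hn : 4 ≤ n) : HE (FX (adj n) (L n 2)) (FX (adjP n) (Dg n)) := by
  have p0 : Fin n × Fin n := (⟨0, by omega⟩, ⟨0, by omega⟩)
  refine FX_congr (toPair p0) toSet ?_ ?_ ?_ ?_ ?_
  · intro v hv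
    obtain ⟨h1, h2⟩ := toPair_spec p0 hv.1
    rw [← toSet_mem hn h1, h2]
    exact hv
  · intro p hp
    exact (toSet_mem hn (Fin.lt_def.2 (by have := hp.1; omega))).2 hp
  · intro v hv
    exact (toPair_spec p0 hv.1).2
  · intro p hp
    exact toPair_toSet p0 (Fin.lt_def.2 (by have := hp.1; omega))
  · intro u hu v hv _
    obtain ⟨h1, h2⟩ := toPair_spec p0 hu.1
    obtain ⟨h3, h4⟩ := toPair_spec p0 hv.1
    unfold adj adjP
    have e1 : u.1 = {(toPair p0 u).1.val, (toPair p0 u).2.val} := (congrArg Subtype.val h2).symm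
    have e2 : v.1 = {(toPair p0 v).1.val, (toPair p0 v).2.val} := (congrArg Subtype.val h4).symm
    rw [e1, e2, Cr_pair h1 h3, not_or]
    exact Iff.rfl

theorem glue2 {n : ℕ} :
    HE (FX (adjP n) (Dg n)) (FX (D2.adj (n := n)) (D2.diagonals n)) := by
  refine FX_congr id id (fun _ h => h) (fun _ h => h) (fun _ _ => rfl) (fun _ _ => rfl) ?_
  intro u hu v hv _
  have h1 : u.1.val < u.2.val := by have := hu.1; omega
  have h2 : v.1.val < v.2.val := by have := hv.1; omega
  unfold adjP D2.adj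
  simp only [id, Fin.lt_def]
  constructor
  · intro h
    exact ⟨fun _ _ => h, fun h' => by omega, fun h' => by omega⟩
  · intro h
    exact h.1 h1 h2

theorem main {k n : ℕ} (hk : 2 ≤ k) (hkn : k + 2 ≤ n) (W : Finset (Finset ℕ))
    (hW : ∀ S, S ∈ W ↔ S ⊆ Finset.range n ∧ S.card = k ∧ ¬ IsI n k S) :
    HE (FT W) (Metric.sphere (0 : EuclideanSpace ℝ (Fin (n - 3))) 1) :=
  frozen_of Pool.Agent.W296.WS.Rem.removal
    (fun _ hn => (glue hn).trans (glue2.trans
      (D2.d2_sphere Pool.Agent.W296.WS.Rem.removal hn))) k n hk hkn W hW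

end WSep
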