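import Pool.Agent.W296.WS.Apex

/-! Cyclic intervals of `range n`. -/

set_option autoImplicit false

namespace WSep
open Pool.Agent.W296.WS (Cr)

/-- cyclic interval of length `k` -/
def IsI (n k : ℕ) (S : Finset ℕ) : Prop :=
  ∃ i, i < n ∧ S = (Finset.range k).image (fun j => (i + j) % n)

/-- membership in the arc -/
def A (n k i x : ℕ) : Prop := x < n ∧ ((i ≤ x ∧ x < i + k) ∨ x + n < i + k)

theorem mem_arc {n k i x : ℕ} (hi : i < n) (hk : k ≤ n) :
    x ∈ (Finset.range k).image (fun j => (i + j) % n) ↔ A n k i x := by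
  unfold A
  rw [Finset.mem_image]
  constructor
  · rintro ⟨j, hj, rfl⟩
    rw [Finset.mem_range] at hj
    rcases lt_or_ge (i + j) n with h | h
    · rw [Nat.mod_eq_of_lt h]; omega
    · rw [Nat.mod_eq_sub_mod h, Nat.mod_eq_of_lt (by omega)]; omega
  · rintro ⟨hx, h | h⟩
    · refine ⟨x - i, Finset.mem_range.2 (by omega), ?_⟩
      rw [show i + (x - i) = x by omega, Nat.mod_eq_of_lt hx]
    · refine ⟨x + n - i, Finset.mem_range.2 (by omega), ?_⟩
      rw [show i + (x + n - i) = x + n by omega, Nat.add_mod_right, Nat.mod_eq_of_lt hx]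

theorem isI_iff {n k : ℕ} (hk : k ≤ n) {S : Finset ℕ} :
    IsI n k S ↔ ∃ i, i < n ∧ ∀ x, x ∈ S ↔ A n k i x := by
  unfold IsI
  constructor
  · rintro ⟨i, hi, rfl⟩
    exact ⟨i, hi, fun x => mem_arc hi hk⟩
  · rintro ⟨i, hi, h⟩
    refine ⟨i, hi, ?_⟩
    ext x
    rw [h x, mem_arc hi hk]

theorem erase_int {n k : ℕ} (h3 : 3 ≤ k) (hkn : k < n) {J : Finset ℕ}
    {x y : ℕ} (hx : x ∈ J) (hxy : x ≠ y)
    (h1 : IsI n (k - 1) (J.erase x)) (h2 : IsI n (k - 1) (J.erase y)) (hJ : J ⊆ Finset.range n) :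
    IsI n k J := by
  rw [isI_iff (by omega)] at h1 h2
  rw [isI_iff (by omega)]
  obtain ⟨i, hi, h1⟩ := h1
  obtain ⟨i', hi', h2⟩ := h2
  have hxn : x < n := Finset.mem_range.1 (hJ hx)
  have hx2 : A n (k - 1) i' x := (h2 x).1 (Finset.mem_erase.2 ⟨hxy, hx⟩)
  have hx1 : ¬ A n (k - 1) i x := fun h => by
    have := (h1 x).2 h
    simp at this
  have H : ∀ z, A n (k - 1) i' z → z ≠ x → A n (k - 1) i z := by
    intro z hz hzx
    have := (h2 z).2 hz
    rw [Finset.mem_erase] at this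
    exact (h1 z).1 (Finset.mem_erase.2 ⟨hzx, this.2⟩)
  have key : (x = i + k - 1 ∨ x + n = i + k - 1) ∨ (x + 1 = i ∨ (x + 1 = n ∧ i = 0)) := by
    have e1 := H (x + 1)
    have e2 := H 0
    have e3 := H (x - 1)
    have e4 := H (n - 1)
    unfold A at *
    by_contra hcon
    push Not at hcon
    obtain ⟨⟨c1, c2⟩, c3, c4⟩ := hcon
    rcases Nat.lt_or_ge (x + 1) n with g1 | g1
    · rcases Nat.eq_zero_or_pos x with g2 | g2
      · subst g2; omega
      · omega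
    · have : x = n - 1 := by omega
      subst this
      omega
  have hJ' : ∀ z, z ∈ J ↔ z = x ∨ A n (k - 1) i z := by
    intro z
    constructor
    · intro hz
      by_cases hzx : z = x
      · exact Or.inl hzx
      · exact Or.inr ((h1 z).1 (Finset.mem_erase.2 ⟨hzx, hz⟩))
    · rintro (rfl | hz)
      · exact hx
      · exact Finset.mem_of_mem_erase ((h1 z).2 hz)
  rcases key with key | key
  · refine ⟨i, hi, fun z => ?_⟩
    rw [hJ' z]
    unfold A at *
    constructor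
    · rintro (rfl | h) <;> omega
    · intro h; omega
  · refine ⟨x, hxn, fun z => ?_⟩
    rw [hJ' z]
    unfold A at *
    constructor
    · rintro (rfl | h) <;> omega
    · intro h; omega

theorem compl_int {n k : ℕ} (hk0 : 0 < k) (hkn : k < n) {S : Finset ℕ}
    (h : IsI n k S) : IsI n (n - k) (Finset.range n \ S) := by
  rw [isI_iff (by omega)] at h ⊢
  obtain ⟨i, hi, h⟩ := h
  rcases lt_or_ge (i + k) n with g | g
  · refine ⟨i + k, g, fun z => ?_⟩
    rw [Finset.mem_sdiff, Finset.mem_range, h z]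
    unfold A
    omega
  · refine ⟨i + k - n, by omega, fun z => ?_⟩
    rw [Finset.mem_sdiff, Finset.mem_range, h z]
    unfold A
    omega

theorem sdiff_sdiff_range {n : ℕ} {S T : Finset ℕ} (hT : T ⊆ Finset.range n) :
    (Finset.range n \ S) \ (Finset.range n \ T) = T \ S := by
  ext x
  simp only [Finset.mem_sdiff, Finset.mem_range]
  constructor
  · rintro ⟨⟨h1, h2⟩, h3⟩
    refine ⟨?_, h2⟩
    by_contra h; exact h3 ⟨h1, h⟩
  · rintro ⟨h1, h2⟩
    exact ⟨⟨Finset.mem_range.1 (hT h1), h2⟩, fun h => h.2 h1⟩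

theorem Cr_compl {n : ℕ} {S T : Finset ℕ} (hS : S ⊆ Finset.range n) (hT : T ⊆ Finset.range n) :
    Cr (Finset.range n \ S) (Finset.range n \ T) ↔ Cr S T := by
  unfold Cr
  rw [sdiff_sdiff_range hT, sdiff_sdiff_range hS]
  constructor
  · rintro ⟨a, b, c, d, h1, h2, h3, h4⟩
    exact ⟨a, b, c, d, h1, h2, h3, h4.symm⟩
  · rintro ⟨a, b, c, d, h1, h2, h3, h4⟩
    exact ⟨a, b, c, d, h1, h2, h3, h4.symm⟩

theorem not_Cr_of_subset {S T : Finset ℕ} (h : S ⊆ T) : ¬ Cr S T := by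
  rintro ⟨a, b, c, d, _, _, _, h4⟩
  have : S \ T = ∅ := Finset.sdiff_eq_empty_iff_subset.2 h
  rw [this] at h4
  simp at h4

theorem not_Cr_erase {J : Finset ℕ} (x y : ℕ) : ¬ Cr (J.erase x) (J.erase y) := by
  rintro ⟨a, b, c, d, h1, h2, h3, h4⟩
  simp only [Finset.mem_sdiff, Finset.mem_erase] at h4
  rcases h4 with ⟨⟨⟨a1, a2⟩, a3⟩, -, ⟨⟨c1, c2⟩, c3⟩, -⟩ | ⟨-, ⟨⟨a1, a2⟩, a3⟩, -, ⟨⟨c1, c2⟩, c3⟩⟩
  · have e1 : a = y := by by_contra h; exact a3 ⟨h, a2⟩
    have e2 : c = y := by by_contra h; exact c3 ⟨h, c2⟩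
    omega
  · have e1 : b = y := by by_contra h; exact a3 ⟨h, a2⟩
    have e2 : d = y := by by_contra h; exact c3 ⟨h, c2⟩
    omega

end WSep
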