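import Pool.Agent.W120.WS.Congr
import Pool.Agent.W120.WS.Intv

/-! The chain `L n k ≃ L n (k-1) ≃ ... ≃ L n 2` and the transfer of the frozen type. -/

set_option autoImplicit false

namespace WSep
open Pool.Agent.W296.WS (Cr)

/-- subsets of `range n` -/
abbrev V (n : ℕ) : Type := ↥((Finset.range n).powerset)

/-- chord separated -/
def adj (n : ℕ) (v w : V n) : Prop := ¬ Cr v.1 w.1

/-- the non-intervals of size `k` -/
def L (n k : ℕ) : Set (V n) := {v | v.1.card = k ∧ ¬ IsI n k v.1}

theorem V_sub {n : ℕ} (v : V n) : v.1 ⊆ Finset.range n := Finset.mem_powerset.1 v.2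

theorem adj_symm (n : ℕ) (a b : V n) (h : adj n a b) : adj n b a :=
  fun h' => h (Pool.Agent.W296.WS.Cr.symm h')

theorem step (hT : Removal) {n k : ℕ} (h3 : 3 ≤ k) (hk : k + 2 ≤ n) :
    HE (FX (adj n) (L n (k - 1) ∪ L n k)) (FX (adj n) (L n (k - 1))) := by
  classical
  have key := remove_many hT (adj n) (adj_symm n) (L n (k - 1))
    (Finset.univ.filter (fun v : V n => v ∈ L n k)) ?_ ?_
  · have h1 : {v : V n | v ∈ Finset.univ.filter (fun v : V n => v ∈ L n k)} = L n k := by
      ext v; simp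
    rwa [h1] at key
  · intro v hv hv'
    rw [Finset.mem_filter] at hv
    have h1 := hv.2.1
    have h2 := hv'.1
    omega
  · intro J hJ
    rw [Finset.mem_filter] at hJ
    have hc : J.1.card = k := hJ.2.1
    have hni : ¬ IsI n k J.1 := hJ.2.2
    refine ⟨{r | ∃ x ∈ J.1, r.1 = J.1.erase x ∧ ¬ IsI n (k - 1) r.1}, ?_, ?_, ?_⟩
    · rintro r ⟨x, hx, hr, hr2⟩
      refine ⟨⟨?_, hr2⟩, ?_⟩
      · rw [hr, Finset.card_erase_of_mem hx, hc]
      · apply adj_symm
        show ¬ Cr r.1 J.1
        rw [hr]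
        exact not_Cr_of_subset (Finset.erase_subset _ _)
    · rintro r ⟨x, hx, hr, hr2⟩ r' ⟨x', hx', hr', hr2'⟩
      right
      show ¬ Cr r.1 r'.1
      rw [hr, hr']
      exact not_Cr_erase _ _
    · intro F hF1 hF2
      obtain ⟨x, hx, y, hy, hxy, h5, h6⟩ := Pool.Agent.W296.WS.apex n J.1 (V_sub J) (by omega)
        {S | ∃ u ∈ F, S = u.1} (by rintro S ⟨u, _, rfl⟩; exact V_sub u)
        (by rintro S ⟨u, hu, rfl⟩; exact adj_symm n _ _ (hF1 u hu).2.2)
        (by
          rintro S ⟨u, hu, rfl⟩ S' ⟨u', hu', rfl⟩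
          rcases hF2 u hu u' hu' with h | h
          · rw [h]; exact Pool.Agent.W296.WS.not_Cr_self _
          · exact h)
      have main : ∀ x ∈ J.1, (∀ S ∈ {S | ∃ u ∈ F, S = u.1}, ¬ Cr S (J.1.erase x)) →
          ¬ IsI n (k - 1) (J.1.erase x) →
          ∃ r ∈ {r : V n | ∃ x ∈ J.1, r.1 = J.1.erase x ∧ ¬ IsI n (k - 1) r.1},
            ∀ u ∈ F, u = r ∨ adj n u r := by
        intro x hx h7 h8
        refine ⟨⟨J.1.erase x, Finset.mem_powerset.2
          ((Finset.erase_subset _ _).trans (V_sub J))⟩, ⟨x, hx, rfl, h8⟩, ?_⟩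
        intro u hu
        right
        exact h7 u.1 ⟨u, hu, rfl⟩
      by_cases h7 : IsI n (k - 1) (J.1.erase x)
      · by_cases h8 : IsI n (k - 1) (J.1.erase y)
        · exact absurd (erase_int h3 (by omega) hx hxy h7 h8 (V_sub J)) hni
        · exact main y hy h6 h8
      · exact main x hx h5 h7

/-- complement -/
def cpl {n : ℕ} (v : V n) : V n :=
  ⟨Finset.range n \ v.1, Finset.mem_powerset.2 Finset.sdiff_subset⟩

theorem cpl_cpl {n : ℕ} (v : V n) : cpl (cpl v) = v := by
  apply Subtype.ext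
  show Finset.range n \ (Finset.range n \ v.1) = v.1
  exact Finset.sdiff_sdiff_eq_self (V_sub v)

theorem cpl_mem {n k : ℕ} (h0 : 0 < k) (h1 : k < n) {v : V n} (hv : v ∈ L n k) :
    cpl v ∈ L n (n - k) := by
  refine ⟨?_, ?_⟩
  · show (Finset.range n \ v.1).card = n - k
    rw [Finset.card_sdiff_of_subset (V_sub v), Finset.card_range, hv.1]
  · intro h
    have := compl_int (S := (cpl v).1) (n := n) (k := n - k) (by omega) (by omega) h
    rw [show n - (n - k) = k by omega] at this
    apply hv.2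
    have e : Finset.range n \ (cpl v).1 = v.1 := congrArg Subtype.val (cpl_cpl v)
    rwa [e] at this

theorem adj_cpl {n : ℕ} (v w : V n) : adj n v w ↔ adj n (cpl v) (cpl w) := by
  unfold adj
  rw [not_iff_not]
  exact (Cr_compl (V_sub v) (V_sub w)).symm

theorem compl_he {n : ℕ} (S S' : Set (V n)) (h1 : ∀ v ∈ S, cpl v ∈ S') (h2 : ∀ v ∈ S', cpl v ∈ S) :
    HE (FX (adj n) S) (FX (adj n) S') :=
  FX_congr cpl cpl h1 h2 (fun v _ => cpl_cpl v) (fun v _ => cpl_cpl v)
    (fun u _ v _ _ => adj_cpl u v)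

theorem down (hT : Removal) {n k : ℕ} (h3 : 3 ≤ k) (hk : k + 2 ≤ n) :
    HE (FX (adj n) (L n k)) (FX (adj n) (L n (k - 1))) := by
  have e1 : HE (FX (adj n) (L n k)) (FX (adj n) (L n (n - k))) :=
    compl_he _ _ (fun v hv => cpl_mem (by omega) (by omega) hv) (fun v hv => by
      have := cpl_mem (n := n) (k := n - k) (by omega) (by omega) hv
      rwa [show n - (n - k) = k by omega] at this)
  have e2 := step hT (n := n) (k := n - k + 1) (by omega) (by omega)
  rw [show n - k + 1 - 1 = n - k by omega] at e2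
  have e3 : HE (FX (adj n) (L n (n - k) ∪ L n (n - k + 1))) (FX (adj n) (L n (k - 1) ∪ L n k)) := by
    apply compl_he
    · rintro v (hv | hv)
      · right
        have := cpl_mem (n := n) (k := n - k) (by omega) (by omega) hv
        rwa [show n - (n - k) = k by omega] at this
      · left
        have := cpl_mem (n := n) (k := n - k + 1) (by omega) (by omega) hv
        rwa [show n - (n - k + 1) = k - 1 by omega] at this
    · rintro v (hv | hv)
      · right
        have := cpl_mem (n := n) (k := k - 1) (by omega) (by omega) hv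
        rwa [show n - (k - 1) = n - k + 1 by omega] at this
      · left
        exact cpl_mem (n := n) (k := k) (by omega) (by omega) hv
  exact e1.trans (e2.symm.trans (e3.trans (step hT h3 hk)))

theorem chain (hT : Removal) {n : ℕ} : ∀ k : ℕ, 2 ≤ k → k + 2 ≤ n →
    HE (FX (adj n) (L n k)) (FX (adj n) (L n 2)) := by
  intro k
  induction k with
  | zero => intro h; omega
  | succ k ih =>
    intro h2 h3
    rcases Nat.lt_or_ge k 2 with h | h
    · have : k = 1 := by omega
      subst this; exact HE.refl _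
    · have := down hT (n := n) (k := k + 1) (by omega) h3
      exact this.trans (ih h (by omega))

end WSep
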