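import Pool.Agent.W283.WS.Defs

/-! Transfer of `FX` along a bijection of vertex sets, and removal of many vertices. -/

set_option autoImplicit false

namespace WSep
open Classical

/-- pushing along a partial bijection -/
noncomputable def push {V V' : Type*} (S' : Set V') (f : V' → V) (x : V → ℝ) : V' → ℝ :=
  fun v' => if v' ∈ S' then x (f v') else 0

theorem continuous_push {V V' : Type*} (S' : Set V') (f : V' → V) : Continuous (push S' f) := by
  refine continuous_pi fun v' => ?_
  unfold push
  by_cases h : v' ∈ S'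
  · simp only [h, if_true]; exact continuous_apply _
  · simp only [h, if_false]; exact continuous_const

theorem push_mem {V V' : Type*} [Fintype V] [Fintype V'] {adj : V → V → Prop}
    {adj' : V' → V' → Prop} {S : Set V} {S' : Set V'} (e : V → V') (f : V' → V)
    (he : ∀ v ∈ S, e v ∈ S') (hf : ∀ v ∈ S', f v ∈ S)
    (hfe : ∀ v ∈ S, f (e v) = v) (hef : ∀ v ∈ S', e (f v) = v)
    (h : ∀ u ∈ S', ∀ v ∈ S', u ≠ v → adj (f u) (f v) → adj' u v) {x : V → ℝ}
    (hx : x ∈ FX adj S) : push S' f x ∈ FX adj' S' := by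
  obtain ⟨h0, h1, h2, h3⟩ := hx
  refine ⟨?_, ?_, ?_, ?_⟩
  · intro v; unfold push; split_ifs
    · exact h0 _
    · exact le_rfl
  · rw [← h1]
    have e1 : ∑ v, x v = ∑ v ∈ Finset.univ.filter (fun v => v ∈ S), x v := by
      symm
      apply Finset.sum_filter_of_ne
      intro v _ hv; exact h2 v hv
    have e2 : ∑ v, push S' f x v = ∑ v ∈ Finset.univ.filter (fun v => v ∈ S'), x (f v) := by
      unfold push
      rw [← Finset.sum_filter]
    rw [e1, e2]
    refine Finset.sum_nbij' f e ?_ ?_ ?_ ?_ ?_
    · intro v hv; simp only [Finset.mem_filter, Finset.mem_univ, true_and] at hv ⊢; exact hf v hv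
    · intro v hv; simp only [Finset.mem_filter, Finset.mem_univ, true_and] at hv ⊢; exact he v hv
    · intro v hv; simp only [Finset.mem_filter, Finset.mem_univ, true_and] at hv; exact hef v hv
    · intro v hv; simp only [Finset.mem_filter, Finset.mem_univ, true_and] at hv; exact hfe v hv
    · intro v _; rfl
  · intro v hv; unfold push at hv; by_contra h; simp [h] at hv
  · intro u v hu hv
    unfold push at hu hv
    have hu' : u ∈ S' := by by_contra h; simp [h] at hu
    have hv' : v ∈ S' := by by_contra h; simp [h] at hv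
    simp only [hu', hv', if_true] at hu hv
    by_cases huv : u = v
    · exact Or.inl huv
    · right
      rcases h3 _ _ hu hv with h4 | h4
      · exfalso; apply huv
        have := congrArg e h4
        rwa [hef u hu', hef v hv'] at this
      · exact h u hu' v hv' huv h4

theorem FX_congr {V V' : Type*} [Fintype V] [Fintype V'] {adj : V → V → Prop}
    {adj' : V' → V' → Prop} {S : Set V} {S' : Set V'} (e : V → V') (f : V' → V)
    (he : ∀ v ∈ S, e v ∈ S') (hf : ∀ v ∈ S', f v ∈ S)
    (hfe : ∀ v ∈ S, f (e v) = v) (hef : ∀ v ∈ S', e (f v) = v)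
    (h : ∀ u ∈ S, ∀ v ∈ S, u ≠ v → (adj u v ↔ adj' (e u) (e v))) :
    HE (FX adj S) (FX adj' S') := by
  refine HE.of_homeo
    { toFun := fun x => ⟨push S' f x.1, push_mem e f he hf hfe hef ?_ x.2⟩
      invFun := fun y => ⟨push S e y.1, push_mem f e hf he hef hfe ?_ y.2⟩
      left_inv := ?_
      right_inv := ?_
      continuous_toFun := ?_
      continuous_invFun := ?_ }
  · intro u hu v hv huv hadj
    have := (h (f u) (hf u hu) (f v) (hf v hv) (fun hh => huv (by
      have := congrArg e hh; rwa [hef u hu, hef v hv] at this))).1 hadj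
    rwa [hef u hu, hef v hv] at this
  · intro u hu v hv huv hadj
    exact (h u hu v hv huv).2 hadj
  · rintro ⟨x, hx⟩
    apply Subtype.ext
    funext v
    simp only [push]
    by_cases hv : v ∈ S
    · simp only [hv, if_true, he v hv, hfe v hv]
    · simp only [hv, if_false]
      by_contra h
      exact hv (hx.2.2.1 v (Ne.symm h))
  · rintro ⟨x, hx⟩
    apply Subtype.ext
    funext v
    simp only [push]
    by_cases hv : v ∈ S'
    · simp only [hv, if_true, hf v hv, hef v hv]
    · simp only [hv, if_false]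
      by_contra h
      exact hv (hx.2.2.1 v (Ne.symm h))
  · exact Continuous.subtype_mk ((continuous_push S' f).comp continuous_subtype_val) _
  · exact Continuous.subtype_mk ((continuous_push S e).comp continuous_subtype_val) _

/-- removal of all vertices of `T` -/
theorem remove_many (hT : Removal) {V : Type} [Fintype V] (adj : V → V → Prop)
    (symm : ∀ a b, adj a b → adj b a) (A : Set V) (T : Finset V)
    (hd : ∀ v ∈ T, v ∉ A)
    (h : ∀ v ∈ T, ∃ R : Set V, (∀ r ∈ R, r ∈ A ∧ adj v r) ∧
      (∀ r ∈ R, ∀ r' ∈ R, r = r' ∨ adj r r') ∧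
      ∀ F : Finset V, (∀ u ∈ F, (u ∈ A ∨ u ∈ T) ∧ u ≠ v ∧ adj v u) →
        (∀ u ∈ F, ∀ w ∈ F, u = w ∨ adj u w) → ∃ r ∈ R, ∀ u ∈ F, u = r ∨ adj u r) :
    HE (FX adj (A ∪ {v | v ∈ T})) (FX adj A) := by
  induction T using Finset.induction_on with
  | empty =>
    have h1 : (A ∪ {v | v ∈ (∅ : Finset V)}) = A := by
      ext w; simp
    rw [h1]; exact HE.refl _
  | insert v T hvT ih =>
    have h1 : HE (FX adj (A ∪ {w | w ∈ insert v T})) (FX adj ((A ∪ {w | w ∈ insert v T}) \ {v})) := by
      obtain ⟨R, hR1, hR2, hR3⟩ := h v (Finset.mem_insert_self _ _)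
      refine hT V adj _ v R symm ?_ ?_ hR2 ?_
      · right; exact Finset.mem_insert_self _ _
      · intro r hr
        refine ⟨Or.inl (hR1 r hr).1, ?_, (hR1 r hr).2⟩
        rintro rfl
        exact hd r (Finset.mem_insert_self _ _) (hR1 r hr).1
      · intro F hF1 hF2
        refine hR3 F ?_ hF2
        intro u hu
        obtain ⟨h5, h6, h7⟩ := hF1 u hu
        exact ⟨h5, h6, h7⟩
    have h2 : (A ∪ {w | w ∈ insert v T}) \ {v} = A ∪ {w | w ∈ T} := by
      ext w
      simp only [Set.mem_sdiff, Set.mem_union, Set.mem_ofPred_eq, Set.mem_singleton_iff,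
        Finset.mem_insert]
      constructor
      · rintro ⟨h5 | h5 | h5, h6⟩
        · exact Or.inl h5
        · exact absurd h5 h6
        · exact Or.inr h5
      · rintro (h5 | h5)
        · refine ⟨Or.inl h5, ?_⟩
          rintro rfl
          exact hd _ (Finset.mem_insert_self _ _) h5
        · refine ⟨Or.inr (Or.inr h5), ?_⟩
          rintro rfl
          exact hvT h5
    rw [h2] at h1
    refine h1.trans (ih ?_ ?_)
    · intro w hw; exact hd w (Finset.mem_insert_of_mem hw)
    · intro w hw
      obtain ⟨R, hR1, hR2, hR3⟩ := h w (Finset.mem_insert_of_mem hw)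
      refine ⟨R, hR1, hR2, ?_⟩
      intro F hF1 hF2
      refine hR3 F ?_ hF2
      intro u hu
      obtain ⟨h5, h6, h7⟩ := hF1 u hu
      exact ⟨h5.imp id (Finset.mem_insert_of_mem), h6, h7⟩

end WSep
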