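import Mathlib

/-! Crossing and chord separation of subsets of `Fin n` (frozen statement S09529, MP_74f948_co). -/

set_option autoImplicit false

namespace WSep

/-- `I` and `J` cross: four points in linear order alternating between `I \ J` and `J \ I`. -/
def Cross {n : ℕ} (I J : Finset (Fin n)) : Prop :=
  ∃ a b c d : Fin n, a < b ∧ b < c ∧ c < d ∧
    ((a ∈ I \ J ∧ b ∈ J \ I ∧ c ∈ I \ J ∧ d ∈ J \ I) ∨
     (a ∈ J \ I ∧ b ∈ I \ J ∧ c ∈ J \ I ∧ d ∈ I \ J))

/-- chord separated -/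
def Sep {n : ℕ} (I J : Finset (Fin n)) : Prop := ¬ Cross I J

theorem Cross.symm {n : ℕ} {I J : Finset (Fin n)} (h : Cross I J) : Cross J I := by
  obtain ⟨a, b, c, d, h1, h2, h3, h4⟩ := h
  exact ⟨a, b, c, d, h1, h2, h3, h4.symm⟩

theorem Sep.symm {n : ℕ} {I J : Finset (Fin n)} (h : Sep I J) : Sep J I := fun h' => h h'.symm

theorem Sep.refl {n : ℕ} (I : Finset (Fin n)) : Sep I I := by
  rintro ⟨a, b, c, d, -, -, -, h⟩
  simp at h

theorem sep_comm {n : ℕ} {I J : Finset (Fin n)} : Sep I J ↔ Sep J I := ⟨Sep.symm, Sep.symm⟩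

end WSep
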