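import Pool.Agent.W120.WS.Chain

/-! Transfer of the frozen type. -/

set_option autoImplicit false

namespace WSep
open Pool.Agent.W296.WS (Cr)

/-- the type of the frozen statement -/
abbrev FT (W : Finset (Finset ℕ)) : Type :=
  {x : (↥W → ℝ) //
            (∀ v, 0 ≤ x v) ∧ (∑ v, x v) = 1 ∧
            ∀ v w : ↥W, x v ≠ 0 → x w ≠ 0 →
              ¬ ∃ a b c d : ℕ, a < b ∧ b < c ∧ c < d ∧
                ((a ∈ v.1 \ w.1 ∧ b ∈ w.1 \ v.1 ∧ c ∈ v.1 \ w.1 ∧ d ∈ w.1 \ v.1) ∨
                 (a ∈ w.1 \ v.1 ∧ b ∈ v.1 \ w.1 ∧ c ∈ w.1 \ v.1 ∧ d ∈ v.1 \ w.1))}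

theorem frozen_he {n k : ℕ} (W : Finset (Finset ℕ))
    (hW : ∀ S, S ∈ W ↔ S ⊆ Finset.range n ∧ S.card = k ∧ ¬ IsI n k S) :
    HE (FT W) (FX (adj n) (L n k)) := by
  have h1 : HE (FT W) (FX (V := ↥W) (fun v w => ¬ Cr v.1 w.1) Set.univ) := by
    have e : {x : (↥W → ℝ) | (∀ v, 0 ≤ x v) ∧ (∑ v, x v) = 1 ∧
            ∀ v w : ↥W, x v ≠ 0 → x w ≠ 0 → ¬ Cr v.1 w.1} =
        FX (V := ↥W) (fun v w => ¬ Cr v.1 w.1) Set.univ := by
      ext x
      constructor
      · rintro ⟨h1, h2, h3⟩
        exact ⟨h1, h2, fun v _ => Set.mem_univ v, fun u v hu hv => Or.inr (h3 u v hu hv)⟩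
      · rintro ⟨h1, h2, _, h3⟩
        refine ⟨h1, h2, fun v w hv hw => ?_⟩
        rcases h3 v w hv hw with h | h
        · rw [h]; exact Pool.Agent.W296.WS.not_Cr_self _
        · exact h
    exact HE.of_homeo (Homeomorph.setCongr e)
  refine h1.trans ?_
  classical
  by_cases hne : ∃ S, S ∈ W
  · obtain ⟨S0, hS0⟩ := hne
    refine FX_congr (S := Set.univ) (S' := L n k)
      (fun v => ⟨v.1, Finset.mem_powerset.2 ((hW v.1).1 v.2).1⟩)
      (fun v => if h : v.1 ∈ W then ⟨v.1, h⟩ else ⟨S0, hS0⟩) ?_ ?_ ?_ ?_ ?_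
    · intro v _
      exact ((hW v.1).1 v.2).2
    · intro v _; exact Set.mem_univ _
    · intro v _
      have : v.1 ∈ W := v.2
      simp
    · intro v hv
      have : v.1 ∈ W := (hW v.1).2 ⟨V_sub v, hv⟩
      apply Subtype.ext
      simp [this]
    · intro u _ v _ _
      exact Iff.rfl
  · push Not at hne
    have e1 : IsEmpty (FX (V := ↥W) (fun v w => ¬ Cr v.1 w.1) Set.univ) := by
      constructor
      rintro ⟨x, hx⟩
      have h2 := hx.2.1
      have : (∑ v, x v) = 0 := by
        apply Finset.sum_eq_zero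
        rintro ⟨v, hv⟩ _
        exact absurd hv (hne v)
      rw [this] at h2
      norm_num at h2
    have e2 : IsEmpty (FX (adj n) (L n k)) := by
      constructor
      rintro ⟨x, hx⟩
      have h2 := hx.2.1
      have : (∑ v, x v) = 0 := by
        apply Finset.sum_eq_zero
        intro v _
        by_contra h
        have := hx.2.2.1 v h
        exact hne v.1 ((hW v.1).2 ⟨V_sub v, this⟩)
      rw [this] at h2
      norm_num at h2
    exact HE.of_homeo
      { toFun := fun x => (e1.false x).elim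
        invFun := fun x => (e2.false x).elim
        left_inv := fun x => (e1.false x).elim
        right_inv := fun x => (e2.false x).elim
        continuous_toFun := by
          rw [continuous_iff_continuousAt]; intro x; exact (e1.false x).elim
        continuous_invFun := by
          rw [continuous_iff_continuousAt]; intro x; exact (e2.false x).elim }

/-- The frozen statement from the removal lemma and the case `k = 2`. -/
theorem frozen_of (hT : Removal)
    (h2 : ∀ n : ℕ, 4 ≤ n → HE (FX (adj n) (L n 2))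
      (Metric.sphere (0 : EuclideanSpace ℝ (Fin (n - 3))) 1))
    (k n : ℕ) (hk : 2 ≤ k) (hkn : k + 2 ≤ n) (W : Finset (Finset ℕ))
    (hW : ∀ S, S ∈ W ↔ S ⊆ Finset.range n ∧ S.card = k ∧ ¬ IsI n k S) :
    HE (FT W) (Metric.sphere (0 : EuclideanSpace ℝ (Fin (n - 3))) 1) :=
  (frozen_he W hW).trans ((chain hT k hk hkn).trans (h2 n (by omega)))

end WSep
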